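import Pool.Agent.X332.KS.Main
import Pool.Agent.TH8.OR.G

/-! Slow growth of the degrees of the iterates implies birationality; heights. -/

set_option autoImplicit false

namespace Pool.Agent.X332.KS

open MvPolynomial Filter Height
open Pool.Agent.TH8.OR (iter iter_hom GivenBy Invertible Om Om_eq Om_indep card_le iter_notMem)

theorem poly_le_exp (c : ℝ) (K : ℕ) {r : ℝ} (hr : 1 < r) :
    ∃ B : ℝ, 0 ≤ B ∧ ∀ n : ℕ, c * ((n : ℝ) + 1) ^ K ≤ B * r ^ n := by
  have h1 := (tendsto_pow_const_div_const_pow_of_one_lt K hr).comp (tendsto_add_atTop_nat 1)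
  obtain ⟨M, hM⟩ := h1.bddAbove_range
  have hr0 : 0 < r := by linarith
  refine ⟨|c| * (max M 0 * r), by positivity, fun n => ?_⟩
  have h2 : (((n + 1 : ℕ) : ℝ)) ^ K / r ^ (n + 1) ≤ M := hM ⟨n, rfl⟩
  rw [div_le_iff₀ (by positivity)] at h2
  push_cast at h2
  have h3 : ((n : ℝ) + 1) ^ K ≤ max M 0 * r * r ^ n := by
    calc ((n : ℝ) + 1) ^ K ≤ M * r ^ (n + 1) := h2
      _ ≤ max M 0 * r ^ (n + 1) := by gcongr; exact le_max_left _ _
      _ = max M 0 * r * r ^ n := by ring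
  calc c * ((n : ℝ) + 1) ^ K ≤ |c| * ((n : ℝ) + 1) ^ K := by gcongr; exact le_abs_self c
    _ ≤ |c| * (max M 0 * r * r ^ n) := by gcongr
    _ = |c| * (max M 0 * r) * r ^ n := by ring

theorem absurd_growth (C r : ℝ) (K : ℕ) (hr0 : 0 < r) (hr : r < 2)
    (h : ∀ n : ℕ, (2 : ℝ) ^ n ≤ C * ((n : ℝ) + 1) ^ K * r ^ n) : False := by
  have hρ : 1 < 2 / r := by rw [lt_div_iff₀ hr0]; linarith
  have h1 := (tendsto_pow_const_div_const_pow_of_one_lt K hρ).comp (tendsto_add_atTop_nat 1)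
  have hC : 0 < max C 1 := lt_max_of_lt_right one_pos
  have hc : (0 : ℝ) < 1 / (max C 1 * (2 / r)) := by positivity
  obtain ⟨n, hn⟩ := (h1.eventually (gt_mem_nhds hc)).exists
  simp only [Function.comp] at hn
  rw [div_lt_div_iff₀ (by positivity) (by positivity)] at hn
  push_cast at hn
  have h2 : max C 1 * ((n : ℝ) + 1) ^ K < (2 / r) ^ n := by
    have h3 : (0 : ℝ) < 2 / r := by positivity
    refine lt_of_mul_lt_mul_right ?_ h3.le
    calc max C 1 * ((n : ℝ) + 1) ^ K * (2 / r) = ((n : ℝ) + 1) ^ K * (max C 1 * (2 / r)) := by ring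
      _ < 1 * (2 / r) ^ (n + 1) := hn
      _ = (2 / r) ^ n * (2 / r) := by ring
  have h4 := h n
  have h5 : C * ((n : ℝ) + 1) ^ K * r ^ n ≤ max C 1 * ((n : ℝ) + 1) ^ K * r ^ n := by
    gcongr
    exact le_max_left _ _
  have h6 : max C 1 * ((n : ℝ) + 1) ^ K * r ^ n < (2 / r) ^ n * r ^ n := by
    gcongr
  rw [← mul_pow, div_mul_cancel₀ _ hr0.ne'] at h6
  linarith

variable {k : Type} [Field k] {N : ℕ} {p : Ideal (MvPolynomial (Fin (N + 1)) k)}
  {F : Fin (N + 1) → MvPolynomial (Fin (N + 1)) k} {d : ℕ}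

theorem not_inv_bound (hp : p.IsPrime) (hF : ∀ j, (F j).IsHomogeneous d)
    (hdom : ∀ (e : ℕ) (H : MvPolynomial (Fin (N + 1)) k), H.IsHomogeneous e →
      (aeval F H ∈ p ↔ H ∈ p)) {j0 : Fin (N + 1)} (hj0 : X j0 ∉ p)
    (hinv : ¬ Invertible p F) {e : ℕ → ℕ} (hgrow : ∀ n, GivenBy p F n (e n)) (n : ℕ) :
    2 ^ n ≤ (∑ i : Fin n, e i + 1) ^ (N + 1) := by
  classical
  by_cases hall : ∀ j, ∃ (e : ℕ) (A B : MvPolynomial (Fin (N + 1)) k), A.IsHomogeneous e ∧
      B.IsHomogeneous e ∧ B ∉ p ∧ X j * aeval F B - X j0 * aeval F A ∈ p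
  · exfalso
    apply hinv
    choose e A B h1 h2 h3 h4 using hall
    have hQ : ∏ i, aeval F (B i) ∉ p := by
      intro hcon
      obtain ⟨i, _, hi⟩ := hp.prod_mem_iff.1 hcon
      exact h3 i ((hdom _ _ (h2 i)).1 hi)
    have hG : ∀ j, X j0 * aeval F (A j * ∏ i ∈ Finset.univ.erase j, B i)
        - X j * ∏ i, aeval F (B i) ∈ p := by
      intro j
      have h5 := p.mul_mem_left (-∏ i ∈ Finset.univ.erase j, aeval F (B i)) (h4 j)
      have h6 : ∏ i, aeval F (B i) = aeval F (B j) * ∏ i ∈ Finset.univ.erase j, aeval F (B i) :=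
        (Finset.mul_prod_erase Finset.univ (fun i => aeval F (B i)) (Finset.mem_univ j)).symm
      rw [h6, map_mul, map_prod]
      have h7 : X j0 * (aeval F (A j) * ∏ i ∈ Finset.univ.erase j, aeval F (B i))
          - X j * (aeval F (B j) * ∏ i ∈ Finset.univ.erase j, aeval F (B i))
          = -(∏ i ∈ Finset.univ.erase j, aeval F (B i)) *
            (X j * aeval F (B j) - X j0 * aeval F (A j)) := by ring
      rw [h7]
      exact h5
    refine ⟨∑ i, e i, fun j => A j * ∏ i ∈ Finset.univ.erase j, B i, fun j => ?_, ⟨j0, ?_⟩, ?_⟩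
    · rw [← Finset.add_sum_erase Finset.univ e (Finset.mem_univ j)]
      exact (h1 j).mul (IsHomogeneous.prod _ _ _ fun i _ => h2 i)
    · intro hcon
      have h5 := p.sub_mem (p.mul_mem_left (X j0) hcon) (hG j0)
      rw [sub_sub_cancel] at h5
      exact hQ ((hp.mem_or_mem h5).resolve_left hj0)
    · intro i j
      have h5 := p.sub_mem (p.mul_mem_left (X j) (hG i)) (p.mul_mem_left (X i) (hG j))
      refine (hp.mem_or_mem (?_ : X j0 * _ ∈ p)).resolve_left hj0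
      have h6 : X j0 * (aeval F (A i * ∏ l ∈ Finset.univ.erase i, B l) * X j
          - aeval F (A j * ∏ l ∈ Finset.univ.erase j, B l) * X i)
          = X j * (X j0 * aeval F (A i * ∏ l ∈ Finset.univ.erase i, B l)
            - X i * ∏ l, aeval F (B l))
          - X i * (X j0 * aeval F (A j * ∏ l ∈ Finset.univ.erase j, B l)
            - X j * ∏ l, aeval F (B l)) := by ring
      rw [h6]
      exact h5
  · push Not at hall
    obtain ⟨j, hj⟩ := hall
    choose G g1 g2 g3 using hgrow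
    have hGj0 : ∀ i, G i j0 ∉ p := by
      intro i hcon
      obtain ⟨l, hl⟩ := g2 i
      have h5 := p.add_mem (g3 i l j0) (p.mul_mem_right (iter F i l) hcon)
      rw [sub_add_cancel] at h5
      exact (hp.mem_or_mem h5).elim hl (iter_notMem (fun e H hH => (hdom e H hH).1) hF hj0 i)
    have hcard := card_le (k := k) (fun ε : Fin n → Bool =>
      ∏ i : Fin n, G i (if ε i then j else j0)) (D := ∑ i : Fin n, e i)
      (fun ε => IsHomogeneous.prod _ _ _ fun i _ => g1 i _) (by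
        intro c hc
        refine Om_indep hp hF hdom hj0 (fun e A B hA hB hBp => hj e A B hA hB hBp) n c ?_
        have h5 : (∑ ε, C (c ε) * Om F j j0 n ε) * ∏ i : Fin n, G i j0 ∈ p := by
          rw [← Ideal.Quotient.eq_zero_iff_mem, map_mul, map_sum, map_prod, Finset.sum_mul]
          have h6 := congrArg (fun z => Ideal.Quotient.mk p z *
            ∏ i : Fin n, Ideal.Quotient.mk p (iter F i j0)) hc
          simp only [map_zero, zero_mul, map_sum, Finset.sum_mul] at h6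
          rw [← h6]
          refine Finset.sum_congr rfl fun ε _ => ?_
          rw [map_mul, map_mul, mul_assoc, mul_assoc, Om_eq, map_prod, map_prod,
            ← Finset.prod_mul_distrib, ← Finset.prod_mul_distrib]
          congr 1
          refine Finset.prod_congr rfl fun i _ => ?_
          have h7 := g3 i (if ε i then j else j0) j0
          rw [← Ideal.Quotient.eq_zero_iff_mem, map_sub, map_mul, map_mul, sub_eq_zero] at h7
          rw [h7, mul_comm]
        refine (hp.mem_or_mem h5).resolve_right fun hcon => ?_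
        obtain ⟨i, _, hi⟩ := hp.prod_mem_iff.1 hcon
        exact hGj0 i hi)
    rwa [Fintype.card_fun, Fintype.card_bool, Fintype.card_fin] at hcard

theorem invertible_of_exp (hp : p.IsPrime) (hF : ∀ j, (F j).IsHomogeneous d)
    (hdom : ∀ (e : ℕ) (H : MvPolynomial (Fin (N + 1)) k), H.IsHomogeneous e →
      (aeval F H ∈ p ↔ H ∈ p)) {j0 : Fin (N + 1)} (hj0 : X j0 ∉ p)
    {B μ : ℝ} (hμ1 : 1 ≤ μ) (hμ : μ ^ (N + 1) < 2)
    (hgrow : ∀ n, ∃ e : ℕ, (e : ℝ) ≤ B * μ ^ n ∧ GivenBy p F n e) : Invertible p F := by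
  by_contra hinv
  choose e he hgr using hgrow
  have hB : 0 ≤ B := by
    have h1 := he 0
    rw [pow_zero, mul_one] at h1
    exact (Nat.cast_nonneg _).trans h1
  have hμ0 : 0 < μ := by linarith
  refine absurd_growth ((B + 1) ^ (N + 1)) (μ ^ (N + 1)) (N + 1) (by positivity) hμ fun n => ?_
  have h1 := not_inv_bound hp hF hdom hj0 hinv hgr n
  have h2 : ((∑ i : Fin n, e i + 1 : ℕ) : ℝ) ≤ (B + 1) * ((n : ℝ) + 1) * μ ^ n := by
    push_cast
    have h3 : ∑ i : Fin n, (e i : ℝ) ≤ n * (B * μ ^ n) := by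
      refine (Finset.sum_le_card_nsmul Finset.univ _ (B * μ ^ n) fun i _ => ?_).trans ?_
      · refine (he i).trans ?_
        have h4 : μ ^ (i : ℕ) ≤ μ ^ n := pow_le_pow_right₀ hμ1 i.2.le
        gcongr
      · rw [Finset.card_univ, Fintype.card_fin, nsmul_eq_mul]
    have h5 : (1 : ℝ) ≤ μ ^ n := one_le_pow₀ hμ1
    have h6 : (0 : ℝ) ≤ (n : ℝ) * μ ^ n := by positivity
    have h7 : (0 : ℝ) ≤ B * μ ^ n := by positivity
    nlinarith
  have h3 : ((2 ^ n : ℕ) : ℝ) ≤ (((∑ i : Fin n, e i + 1) ^ (N + 1) : ℕ) : ℝ) := by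
    exact_mod_cast h1
  rw [Nat.cast_pow, Nat.cast_pow] at h3
  refine (by simpa using h3 : (2 : ℝ) ^ n ≤ _).trans ?_
  have h4 : (∑ i : Fin n, (e i : ℝ) + 1) ^ (N + 1) ≤
      ((B + 1) * ((n : ℝ) + 1) * μ ^ n) ^ (N + 1) := by
    refine pow_le_pow_left₀ (by positivity) ?_ _
    have := h2
    push_cast at this
    exact this
  refine h4.trans (le_of_eq ?_)
  rw [mul_pow, mul_pow, ← pow_mul, ← pow_mul, mul_comm n (N + 1)]

/-- from the sums of the degrees to exponential bounds -/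
theorem exp_of_sum {a b : ℕ} {δ : ℕ → ℕ} {A lam : ℝ} (h1 : 1 ≤ lam)
    (hδ : ∀ n, (δ n : ℝ) ≤ A * lam ^ n) {μ : ℝ} (hμ : lam < μ) :
    ∃ B : ℝ, ∀ n : ℕ, ((a + b * ∑ i ∈ Finset.range n, δ i : ℕ) : ℝ) ≤ B * μ ^ n := by
  have hlam : 0 < lam := by linarith
  have hA : 0 ≤ A := by
    have h2 := hδ 0
    rw [pow_zero, mul_one] at h2
    exact (Nat.cast_nonneg _).trans h2
  obtain ⟨B, hB0, hB⟩ := poly_le_exp (a + b * A) 1 (r := μ / lam) (by
    rw [lt_div_iff₀ hlam]; linarith)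
  refine ⟨B, fun n => ?_⟩
  have h3 : ∑ i ∈ Finset.range n, (δ i : ℝ) ≤ n * (A * lam ^ n) := by
    refine (Finset.sum_le_card_nsmul (Finset.range n) _ (A * lam ^ n) fun i hi => ?_).trans ?_
    · refine (hδ i).trans ?_
      have h4 : lam ^ i ≤ lam ^ n := pow_le_pow_right₀ h1 (Finset.mem_range.1 hi).le
      gcongr
    · rw [Finset.card_range, nsmul_eq_mul]
  push_cast
  have h5 : (1 : ℝ) ≤ lam ^ n := one_le_pow₀ h1
  have h6 : (a : ℝ) + b * ∑ i ∈ Finset.range n, (δ i : ℝ) ≤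
      (a + b * A) * ((n : ℝ) + 1) ^ 1 * lam ^ n := by
    have e1 : (b : ℝ) * ∑ i ∈ Finset.range n, (δ i : ℝ) ≤ b * (n * (A * lam ^ n)) := by
      gcongr
    have e2 : (0 : ℝ) ≤ b * (A * lam ^ n) := by positivity
    have e3 : (0 : ℝ) ≤ a * (n * lam ^ n) := by positivity
    have e4 : (a : ℝ) ≤ a * lam ^ n := by
      have : (0 : ℝ) ≤ a := by positivity
      nlinarith
    calc (a : ℝ) + b * ∑ i ∈ Finset.range n, (δ i : ℝ)
        ≤ a * lam ^ n + b * (n * (A * lam ^ n)) := by linarith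
      _ ≤ (a + b * A) * ((n : ℝ) + 1) ^ 1 * lam ^ n := by
        have : (a + b * A) * ((n : ℝ) + 1) ^ 1 * lam ^ n
          = a * lam ^ n + b * (n * (A * lam ^ n)) + (b * (A * lam ^ n) + a * (n * lam ^ n)) := by
          ring
        rw [this]
        linarith
  refine h6.trans ?_
  calc (a + b * A) * ((n : ℝ) + 1) ^ 1 * lam ^ n ≤ B * (μ / lam) ^ n * lam ^ n := by
        have := hB n
        gcongr
    _ = B * μ ^ n := by rw [mul_assoc, ← mul_pow, div_mul_cancel₀ _ hlam.ne']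

theorem exists_between_pow {lam : ℝ} (K : ℕ) (h : lam ^ K < 2) : ∃ μ, lam < μ ∧ μ ^ K < 2 := by
  have h1 : ContinuousAt (fun x : ℝ => x ^ K) lam := (continuous_pow K).continuousAt
  have h2 := h1.eventually (gt_mem_nhds h)
  have h3 : ∀ᶠ x in nhdsWithin lam (Set.Ioi lam), x ^ K < 2 ∧ lam < x :=
    (h2.filter_mono nhdsWithin_le_nhds).and self_mem_nhdsWithin
  obtain ⟨μ, h4, h5⟩ := h3.exists
  exact ⟨μ, h5, h4⟩

/-- heights under a rational map -/
theorem height_transfer [AdmissibleAbsValues k] {D : ℕ} {x : ℕ → Fin (N + 1) → k}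
    {t : ℕ → Fin D → k} {e : ℕ} {G : Fin (D + 1) → MvPolynomial (Fin (N + 1)) k}
    (hG : ∀ i, (G i).IsHomogeneous e)
    (h : ∀ᶠ m in atTop, eval (x m) (G 0) ≠ 0 ∧
      ∀ i : Fin D, eval (x m) (G i.succ) = t m i * eval (x m) (G 0))
    {lam : ℝ} (ht : ∀ μ : ℝ, 1 < μ → μ < lam →
      ∀ᶠ m in atTop, μ ^ m ≤ logHeight (Fin.cons 1 (t m) : Fin (D + 1) → k)) :
    ∀ μ : ℝ, 1 < μ → μ < lam → ∀ᶠ m in atTop, μ ^ m ≤ logHeight (x m) := by
  intro μ hμ1 hμ
  obtain ⟨ν, h1, h2⟩ := exists_between hμ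
  obtain ⟨C, hC⟩ := logHeight_eval_le' hG
  have hν : 1 < ν := by linarith
  have hμ0 : 0 < μ := by linarith
  have h3 : 1 < ν / μ := by rw [lt_div_iff₀ hμ0]; linarith
  have h4 : ∀ᶠ m : ℕ in atTop, (|C| + (e + 1)) ≤ (ν / μ) ^ m :=
    (tendsto_pow_atTop_atTop_of_one_lt h3).eventually_ge_atTop _
  filter_upwards [h, ht ν hν h2, h4] with m e1 e2 e3
  have h5 : (fun j => eval (x m) (G j)) = eval (x m) (G 0) • (Fin.cons 1 (t m) : Fin (D + 1) → k) := by
    funext j
    refine Fin.cases ?_ (fun i => ?_) j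
    · simp
    · simp [e1.2 i, mul_comm]
  have h6 := hC (x m)
  rw [h5, logHeight_smul_eq_logHeight _ e1.1] at h6
  have h7 : (0 : ℝ) ≤ logHeight (x m) := logHeight_nonneg _
  have h8 : (1 : ℝ) ≤ μ ^ m := one_le_pow₀ hμ1.le
  have h9 : (|C| + (e + 1)) * μ ^ m ≤ ν ^ m := by
    calc (|C| + (e + 1)) * μ ^ m ≤ (ν / μ) ^ m * μ ^ m := by gcongr
      _ = ν ^ m := by rw [← mul_pow, div_mul_cancel₀ _ hμ0.ne']
  have h10 : ν ^ m ≤ |C| + e * logHeight (x m) := (e2.trans h6).trans (by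
    gcongr
    exact le_abs_self C)
  have h11 : (0 : ℝ) ≤ |C| := abs_nonneg C
  have h12 : (e : ℝ) * μ ^ m + μ ^ m ≤ e * logHeight (x m) := by nlinarith
  by_contra hcon
  push Not at hcon
  have h13 : (e : ℝ) * logHeight (x m) ≤ e * μ ^ m := by gcongr
  linarith

end Pool.Agent.X332.KS
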