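import Pool.Agent.X332.KS.Gr
import Pool.Agent.TH8.OR.B

/-! Elimination of several elements, with control of the degrees. -/

set_option autoImplicit false

namespace Pool.Agent.X332.KS

open MvPolynomial
open Pool.Agent.TH8.OR (coords)

variable {k R : Type} [Field k] [Field R] [Algebra k R] {N D : ℕ}

/-- sums of products of monomials of degree at most `E` in `t` and forms of degree `e` at `ξ` -/
def T (k : Type) [Field k] [Algebra k R] (ξ : Fin (N + 1) → R) (t : Fin D → R) (e E : ℕ) :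
    Submodule k R :=
  Submodule.span k {z | ∃ α : Fin D → ℕ, ∑ i, α i ≤ E ∧ ∃ G : MvPolynomial (Fin (N + 1)) k,
    G.IsHomogeneous e ∧ z = (∏ i, t i ^ α i) * aeval ξ G}

variable {ξ : Fin (N + 1) → R} {t : Fin D → R}

theorem mem_T {e E : ℕ} {α : Fin D → ℕ} (hα : ∑ i, α i ≤ E) {G : MvPolynomial (Fin (N + 1)) k}
    (hG : G.IsHomogeneous e) : (∏ i, t i ^ α i) * aeval ξ G ∈ T k ξ t e E :=
  Submodule.subset_span ⟨α, hα, G, hG, rfl⟩

theorem T_mono {e E E' : ℕ} (h : E ≤ E') : T k ξ t e E ≤ T k ξ t e E' := by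
  refine Submodule.span_mono ?_
  rintro z ⟨α, hα, G, hG, rfl⟩
  exact ⟨α, hα.trans h, G, hG, rfl⟩

theorem T_mul {e E e' E' : ℕ} {z w : R} (hz : z ∈ T k ξ t e E) (hw : w ∈ T k ξ t e' E') :
    z * w ∈ T k ξ t (e + e') (E + E') := by
  have h1 : T k ξ t e E * T k ξ t e' E' ≤ T k ξ t (e + e') (E + E') := by
    unfold T
    rw [Submodule.span_mul_span]
    refine Submodule.span_mono ?_
    rintro _ ⟨_, ⟨α, hα, G, hG, rfl⟩, _, ⟨β, hβ, G', hG', rfl⟩, rfl⟩
    refine ⟨fun i => α i + β i, ?_, G * G', hG.mul hG', ?_⟩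
    · rw [Finset.sum_add_distrib]
      omega
    · simp only [map_mul, pow_add, Finset.prod_mul_distrib]
      ring
  exact h1 (Submodule.mul_mem_mul hz hw)

theorem form_mem {e : ℕ} {G : MvPolynomial (Fin (N + 1)) k} (hG : G.IsHomogeneous e) :
    aeval ξ G ∈ T k ξ t e 0 := by
  have h := mem_T (t := t) (ξ := ξ) (E := 0) (α := fun _ : Fin D => 0) (by simp) hG
  simpa using h

theorem T_one : (1 : R) ∈ T k ξ t 0 0 := by
  have h := form_mem (k := k) (ξ := ξ) (t := t) (isHomogeneous_one (Fin (N + 1)) k)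
  rwa [map_one] at h

theorem gr : Gr (T k ξ t) := ⟨T_one, T_mul, T_mono⟩

theorem poly_mem {b : MvPolynomial (Fin D) k} {E : ℕ} (hb : b.totalDegree ≤ E) :
    aeval t b ∈ T k ξ t 0 E := by
  rw [aeval_def, eval₂_eq]
  refine Submodule.sum_mem _ fun m hm => ?_
  rw [← Algebra.smul_def]
  refine Submodule.smul_mem _ _ ?_
  have h1 : ∏ i ∈ m.support, t i ^ m i = ∏ i, t i ^ m i := by
    refine Finset.prod_subset (Finset.subset_univ _) fun i _ hi => ?_
    rw [Finsupp.notMem_support_iff.1 hi, pow_zero]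
  rw [h1]
  have h2 : ∑ i, m i ≤ E := by
    refine le_trans ?_ ((le_totalDegree hm).trans hb)
    rw [Finsupp.sum_fintype _ _ (by simp)]
  have h := mem_T (k := k) (t := t) (ξ := ξ) h2 (isHomogeneous_one (Fin (N + 1)) k)
  rwa [map_one, mul_one] at h

/-- the first element is split off -/
theorem T_sub {t : Fin (D + 1) → R} {e E : ℕ} :
    T k ξ t e E ≤ U (T k ξ fun i => t i.succ) (t 0) E e E := by
  unfold T U
  rw [Submodule.span_le]
  rintro _ ⟨α, hα, G, hG, rfl⟩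
  rw [Fin.sum_univ_succ] at hα
  refine Submodule.subset_span ⟨α 0, by omega, (∏ i : Fin D, t i.succ ^ α i.succ) * aeval ξ G,
    Submodule.subset_span ⟨fun i => α i.succ, by beta_reduce; omega, G, hG, rfl⟩, ?_⟩
  rw [Fin.prod_univ_succ]
  ring

theorem T_zero {t : Fin 0 → R} {e E : ℕ} {z : R} (hz : z ∈ T k ξ t e E) :
    ∃ G : MvPolynomial (Fin (N + 1)) k, G.IsHomogeneous e ∧ z = aeval ξ G := by
  unfold T at hz
  induction hz using Submodule.span_induction with
  | mem z hz =>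
    obtain ⟨α, -, G, hG, rfl⟩ := hz
    exact ⟨G, hG, by simp⟩
  | zero => exact ⟨0, isHomogeneous_zero _ _ _, by simp⟩
  | add z w _ _ h1 h2 =>
    obtain ⟨G, e1, rfl⟩ := h1
    obtain ⟨H, e3, rfl⟩ := h2
    exact ⟨G + H, e1.add e3, by rw [map_add]⟩
  | smul a z _ h1 =>
    obtain ⟨G, e1, rfl⟩ := h1
    refine ⟨C a * G, ?_, ?_⟩
    · have := (isHomogeneous_C (Fin (N + 1)) a).mul e1
      rwa [zero_add] at this
    · rw [map_mul, aeval_C, Algebra.smul_def]

/-- elimination of all elements `t i` -/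
theorem elim (ξ : Fin (N + 1) → R) : ∀ (D : ℕ) (t : Fin D → R), ∃ c : ℕ,
    ∀ (e E : ℕ) (v : Fin (N + 1) → R), (∀ j, v j ∈ T k ξ t e E) → v ≠ 0 →
    ∀ (e' : ℕ) (F : Fin (N + 1) → MvPolynomial (Fin (N + 1)) k), (∀ j, (F j).IsHomogeneous e') →
    (∀ i j, aeval ξ (F i) * v j = aeval ξ (F j) * v i) →
    ∃ (d : ℕ) (G : Fin (N + 1) → MvPolynomial (Fin (N + 1)) k), d ≤ e + c * E ∧
      (∀ j, (G j).IsHomogeneous d) ∧ (∃ j, aeval ξ (G j) ≠ 0) ∧
      ∀ i j, aeval ξ (F i) * aeval ξ (G j) = aeval ξ (F j) * aeval ξ (G i) := by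
  intro D
  induction D with
  | zero =>
    intro t
    refine ⟨0, fun e E v hv hv0 e' F hF hrel => ?_⟩
    choose G h1 h2 using fun j => T_zero (hv j)
    obtain ⟨j0, hj0⟩ := Function.ne_iff.1 hv0
    refine ⟨e, G, by omega, h1, ⟨j0, ?_⟩, fun i j => ?_⟩
    · rw [← h2]
      exact hj0
    · rw [← h2, ← h2]
      exact hrel i j
  | succ D ih =>
    intro t
    obtain ⟨e1, E1, h1⟩ := step (N := N) (gr (k := k) (ξ := ξ) (t := fun i => t i.succ)) (t 0)
    obtain ⟨c, h2⟩ := ih fun i => t i.succ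
    refine ⟨e1 + c * (1 + E1), fun e E v hv hv0 e' F hF hrel => ?_⟩
    obtain ⟨w, w1, w2, w3⟩ := h1 E e E v (fun j => T_sub (hv j)) hv0 e' (fun j => aeval ξ (F j))
      (fun j => form_mem (hF j)) hrel
    obtain ⟨d, G, g1, g2, g3, g4⟩ := h2 _ _ w w2 w1 e' F hF w3
    refine ⟨d, G, g1.trans (le_of_eq (by ring)), g2, g3, g4⟩

/-- the field of quotients of elements of equal degree -/
def M (k : Type) [Field k] [Algebra k R] (ξ : Fin (N + 1) → R) (t : Fin D → R) : Subfield R where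
  carrier := {r | ∃ e E, ∃ g ∈ T k ξ t e E, ∃ h ∈ T k ξ t e E, h ≠ 0 ∧ h * r = g}
  mul_mem' := by
    rintro a b ⟨e, E, g, hg, h, hh, h0, h1⟩ ⟨e', E', g', hg', h', hh', h0', h1'⟩
    refine ⟨e + e', E + E', g * g', T_mul hg hg', h * h', T_mul hh hh', mul_ne_zero h0 h0', ?_⟩
    rw [← h1, ← h1']
    ring
  one_mem' := ⟨0, 0, 1, T_one, 1, T_one, one_ne_zero, one_mul _⟩
  add_mem' := by
    rintro a b ⟨e, E, g, hg, h, hh, h0, h1⟩ ⟨e', E', g', hg', h', hh', h0', h1'⟩
    refine ⟨e + e', E + E', g * h' + h * g', add_mem (T_mul hg hh') (T_mul hh hg'), h * h',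
      T_mul hh hh', mul_ne_zero h0 h0', ?_⟩
    rw [← h1, ← h1']
    ring
  zero_mem' := ⟨0, 0, 0, zero_mem _, 1, T_one, one_ne_zero, by ring⟩
  neg_mem' := by
    rintro a ⟨e, E, g, hg, h, hh, h0, h1⟩
    exact ⟨e, E, -g, neg_mem hg, h, hh, h0, by rw [← h1]; ring⟩
  inv_mem' := by
    rintro a ⟨e, E, g, hg, h, hh, h0, h1⟩
    by_cases ha : a = 0
    · rw [ha, inv_zero]
      exact ⟨0, 0, 0, zero_mem _, 1, T_one, one_ne_zero, by ring⟩
    · refine ⟨e, E, h, hh, g, hg, ?_, ?_⟩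
      · rw [← h1]
        exact mul_ne_zero h0 ha
      · rw [← h1]
        field_simp

theorem div_mem_M {e E : ℕ} {g h : R} (hg : g ∈ T k ξ t e E) (hh : h ∈ T k ξ t e E) :
    g / h ∈ M k ξ t := by
  by_cases h0 : h = 0
  · rw [h0, div_zero]
    exact zero_mem _
  · exact ⟨e, E, g, hg, h, hh, h0, by field_simp⟩

theorem poly_mem_M (b : MvPolynomial (Fin D) k) : aeval t b ∈ M k ξ t := by
  have h := div_mem_M (poly_mem (ξ := ξ) (t := t) (le_refl b.totalDegree))
    (T_mono (Nat.zero_le _) (T_one (k := k) (ξ := ξ) (t := t)))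
  simpa using h

/-- common denominators -/
theorem common {ι : Type} [Fintype ι] (a : ι → R) (ha : ∀ i, a i ∈ M k ξ t) :
    ∃ e E, ∃ h ∈ T k ξ t e E, h ≠ 0 ∧ ∀ i, h * a i ∈ T k ξ t e E := by
  classical
  suffices H : ∀ s : Finset ι, ∃ e E, ∃ h ∈ T k ξ t e E, h ≠ 0 ∧
      ∀ i ∈ s, h * a i ∈ T k ξ t e E by
    obtain ⟨e, E, h, h1, h2, h3⟩ := H Finset.univ
    exact ⟨e, E, h, h1, h2, fun i => h3 i (Finset.mem_univ i)⟩
  intro s
  induction s using Finset.induction_on with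
  | empty => exact ⟨0, 0, 1, T_one, one_ne_zero, fun i hi => absurd hi (Finset.notMem_empty i)⟩
  | insert i0 s _ ih =>
    obtain ⟨e, E, h, h1, h2, h3⟩ := ih
    obtain ⟨e', E', g, hg, h', hh', h0', h1'⟩ := ha i0
    refine ⟨e + e', E + E', h * h', T_mul h1 hh', mul_ne_zero h2 h0', fun i hi => ?_⟩
    rcases Finset.mem_insert.1 hi with rfl | hi
    · have h4 : h * h' * a i = h * g := by rw [← h1']; ring
      rw [h4]
      exact T_mul h1 hg
    · have h4 : h * h' * a i = h * a i * h' := by ring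
      rw [h4]
      exact T_mul (h3 i hi) hh'

/-- the bound for the degrees -/
theorem core {p : Ideal (MvPolynomial (Fin (N + 1)) k)} (t : Fin D → R)
    (hker : ∀ (e : ℕ) (G : MvPolynomial (Fin (N + 1)) k), G.IsHomogeneous e →
      (aeval ξ G = 0 ↔ G ∈ p)) {ι : Type} [Fintype ι] (u : ι → R) :
    ∃ D0 D1 : ℕ, ∀ (E : ℕ) (y : Fin (N + 1) → R), y ≠ 0 →
      (∀ j, ∃ c : ι → MvPolynomial (Fin D) k, (∀ l, (c l).totalDegree ≤ E) ∧
        y j = ∑ l, aeval t (c l) * u l) →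
      ∀ (e : ℕ) (F : Fin (N + 1) → MvPolynomial (Fin (N + 1)) k), (∀ j, (F j).IsHomogeneous e) →
      (∃ j, F j ∉ p) → (∀ i j, aeval ξ (F i) * y j = aeval ξ (F j) * y i) →
      ∃ (d : ℕ) (G : Fin (N + 1) → MvPolynomial (Fin (N + 1)) k), d ≤ D0 + D1 * E ∧
        (∀ j, (G j).IsHomogeneous d) ∧ (∃ j, G j ∉ p) ∧ ∀ i j, G i * F j - G j * F i ∈ p := by
  classical
  obtain ⟨s, a, ha, hco⟩ := coords (M k ξ t) u
  obtain ⟨e0, E0, h, hh, hh0, hha⟩ := common (k := k) (ξ := ξ) (t := t)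
    (fun q : Fin s × ι => a q.1 q.2) fun q => ha q.1 q.2
  obtain ⟨c0, hel⟩ := elim (k := k) ξ D t
  refine ⟨e0 + c0 * E0, c0, ?_⟩
  intro E y hy hc e F hF hF0 hrel
  choose c hc1 hc2 using hc
  obtain ⟨i0, hi0⟩ := hF0
  have hρ : aeval ξ (F i0) ≠ 0 := fun h0 => hi0 ((hker _ _ (hF i0)).1 h0)
  have hy0 : y i0 ≠ 0 := by
    intro h0
    apply hy
    funext j
    have h1 := hrel i0 j
    rw [h0, mul_zero] at h1
    exact (mul_eq_zero.1 h1).resolve_left hρ
  have hFT : ∀ j, aeval ξ (F j) ∈ T k ξ t e 0 := fun j => form_mem (hF j)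
  have h1 : ∃ l, ∑ i, aeval t (c i0 i) * a l i ≠ 0 := by
    by_contra hcon
    push Not at hcon
    apply hy0
    rw [hc2 i0]
    exact (hco (fun i => aeval t (c i0 i)) fun i => poly_mem_M _).2 hcon
  obtain ⟨l, hl⟩ := h1
  obtain ⟨d, G, g1, g2, g3, g4⟩ := hel e0 (E0 + E)
    (fun j => h * ∑ i, aeval t (c j i) * a l i) (fun j => by
      beta_reduce
      rw [Finset.mul_sum]
      refine Submodule.sum_mem _ fun i _ => ?_
      have h2 := T_mul (hha (l, i)) (poly_mem (ξ := ξ) (t := t) (hc1 j i))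
      rw [add_zero] at h2
      have h3 : h * (aeval t (c j i) * a l i) = h * a l i * aeval t (c j i) := by ring
      rw [h3]
      exact h2) (by
      intro h0
      have h2 := congrFun h0 i0
      exact mul_ne_zero hh0 hl h2) e F hF (by
      intro i j
      have h2 := (hco (fun b => aeval ξ (F i) / aeval ξ (F i0) * aeval t (c j b)
        - aeval ξ (F j) / aeval ξ (F i0) * aeval t (c i b)) fun b =>
          sub_mem (mul_mem (div_mem_M (hFT i) (hFT i0)) (poly_mem_M _))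
            (mul_mem (div_mem_M (hFT j) (hFT i0)) (poly_mem_M _))).1 (by
          have h3 : ∑ b, (aeval ξ (F i) / aeval ξ (F i0) * aeval t (c j b)
              - aeval ξ (F j) / aeval ξ (F i0) * aeval t (c i b)) * u b
              = aeval ξ (F i) / aeval ξ (F i0) * y j - aeval ξ (F j) / aeval ξ (F i0) * y i := by
            rw [hc2 i, hc2 j, Finset.mul_sum, Finset.mul_sum, ← Finset.sum_sub_distrib]
            refine Finset.sum_congr rfl fun b _ => ?_
            ring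
          rw [h3, div_mul_eq_mul_div, div_mul_eq_mul_div, hrel i j, sub_self]) l
      have h4 : ∑ b, (aeval ξ (F i) / aeval ξ (F i0) * aeval t (c j b)
          - aeval ξ (F j) / aeval ξ (F i0) * aeval t (c i b)) * a l b
          = aeval ξ (F i) / aeval ξ (F i0) * (∑ b, aeval t (c j b) * a l b)
            - aeval ξ (F j) / aeval ξ (F i0) * ∑ b, aeval t (c i b) * a l b := by
        rw [Finset.mul_sum, Finset.mul_sum, ← Finset.sum_sub_distrib]
        refine Finset.sum_congr rfl fun b _ => ?_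
        ring
      rw [h4] at h2
      have h5 : aeval ξ (F i) * (∑ b, aeval t (c j b) * a l b)
          = aeval ξ (F j) * ∑ b, aeval t (c i b) * a l b := by
        field_simp at h2
        linear_combination h2
      linear_combination h * h5)
  refine ⟨d, G, g1.trans (le_of_eq (by ring)), g2, ?_, fun i j => ?_⟩
  · obtain ⟨j, hj⟩ := g3
    exact ⟨j, fun hp => hj ((hker _ _ (g2 j)).2 hp)⟩
  · have h6 : (G i * F j - G j * F i).IsHomogeneous (d + e) :=
      ((g2 i).mul (hF j)).sub ((g2 j).mul (hF i))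
    rw [← hker _ _ h6, map_sub, map_mul, map_mul]
    linear_combination -(g4 i j)

end Pool.Agent.X332.KS
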