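import Mathlib

/-! Elimination of an element over a graded family of subspaces of a field. -/

set_option autoImplicit false

namespace Pool.Agent.X332.KS

variable {k R : Type} [Field k] [Field R] [Algebra k R] {N : ℕ}

/-- a multiplicative family of subspaces -/
structure Gr (S : ℕ → ℕ → Submodule k R) : Prop where
  one : (1 : R) ∈ S 0 0
  mul : ∀ {e E e' E' : ℕ} {z w : R}, z ∈ S e E → w ∈ S e' E' → z * w ∈ S (e + e') (E + E')
  mono : ∀ {e E E' : ℕ}, E ≤ E' → S e E ≤ S e E'

/-- sums of products of powers `τ ^ i`, `i ≤ s`, and elements of `S e E` -/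
def U (S : ℕ → ℕ → Submodule k R) (τ : R) (s e E : ℕ) : Submodule k R :=
  Submodule.span k {z | ∃ i ≤ s, ∃ w ∈ S e E, z = τ ^ i * w}

variable {S : ℕ → ℕ → Submodule k R} {τ : R}

theorem mem_U {s e E i : ℕ} (hi : i ≤ s) {w : R} (hw : w ∈ S e E) : τ ^ i * w ∈ U S τ s e E :=
  Submodule.subset_span ⟨i, hi, w, hw, rfl⟩

theorem U_rep {s e E : ℕ} {z : R} (hz : z ∈ U S τ s e E) :
    ∃ w : ℕ → R, (∀ i, w i ∈ S e E) ∧ z = ∑ i ∈ Finset.range (s + 1), τ ^ i * w i := by
  unfold U at hz
  induction hz using Submodule.span_induction with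
  | mem z hz =>
    obtain ⟨i, hi, w, hw, rfl⟩ := hz
    refine ⟨fun j => if j = i then w else 0, fun j => ?_, ?_⟩
    · by_cases hj : j = i
      · simpa [hj] using hw
      · simp [hj]
    · rw [Finset.sum_eq_single i]
      · simp
      · intro j _ hj
        simp [hj]
      · intro h
        exact absurd (Finset.mem_range.2 (by omega)) h
  | zero => exact ⟨fun _ => 0, fun _ => zero_mem _, by simp⟩
  | add z w _ _ h1 h2 =>
    obtain ⟨G, e1, e2⟩ := h1
    obtain ⟨H, e3, e4⟩ := h2
    refine ⟨fun i => G i + H i, fun i => add_mem (e1 i) (e3 i), ?_⟩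
    rw [e2, e4, ← Finset.sum_add_distrib]
    exact Finset.sum_congr rfl fun i _ => by ring
  | smul a z _ h1 =>
    obtain ⟨G, e1, e2⟩ := h1
    refine ⟨fun i => a • G i, fun i => Submodule.smul_mem _ _ (e1 i), ?_⟩
    rw [e2, Finset.smul_sum]
    exact Finset.sum_congr rfl fun i _ => by rw [mul_smul_comm]

theorem U_mul (hS : Gr S) {s e E e' E' : ℕ} {z w : R} (hz : z ∈ S e E) (hw : w ∈ U S τ s e' E') :
    z * w ∈ U S τ s (e + e') (E + E') := by
  unfold U at hw
  induction hw using Submodule.span_induction with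
  | mem w hw =>
    obtain ⟨i, hi, w, hw, rfl⟩ := hw
    have h := mem_U (τ := τ) hi (hS.mul hz hw)
    have h2 : z * (τ ^ i * w) = τ ^ i * (z * w) := by ring
    rwa [h2]
  | zero => simp
  | add w w' _ _ h1 h2 =>
    rw [mul_add]
    exact add_mem h1 h2
  | smul a w _ h1 =>
    rw [mul_smul_comm]
    exact Submodule.smul_mem _ _ h1

theorem pow_mem (hS : Gr S) {e E : ℕ} {z : R} (hz : z ∈ S e E) (n : ℕ) :
    z ^ n ∈ S (e * n) (E * n) := by
  induction n with
  | zero => simpa using hS.one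
  | succ n ih =>
    have h := hS.mul ih hz
    rw [← pow_succ] at h
    rwa [← Nat.mul_succ, ← Nat.mul_succ] at h

/-- the powers `τ ^ i`, `i < r`, are independent -/
def Ind (S : ℕ → ℕ → Submodule k R) (τ : R) (r : ℕ) : Prop :=
  ∀ (e E : ℕ) (w : ℕ → R), (∀ i, w i ∈ S e E) → ∑ i ∈ Finset.range r, τ ^ i * w i = 0 →
    ∀ i < r, w i = 0

theorem reduce (hS : Gr S) {e1 E1 s : ℕ} {H : ℕ → R} (hH : ∀ i, H i ∈ S e1 E1)
    (hrel : ∑ i ∈ Finset.range (s + 1 + 1), τ ^ i * H i = 0) {n e E : ℕ} {z : R}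
    (hz : z ∈ U S τ n e E) : H (s + 1) ^ n * z ∈ U S τ s (e + e1 * n) (E + E1 * n) := by
  have hstep : ∀ (e' E' : ℕ) (w : R), w ∈ U S τ s e' E' →
      H (s + 1) * (τ * w) ∈ U S τ s (e' + e1) (E' + E1) := by
    intro e' E' w hw
    unfold U at hw
    induction hw using Submodule.span_induction with
    | mem w hw =>
      obtain ⟨i, hi, G, hG, rfl⟩ := hw
      rcases Nat.lt_or_ge i s with hs | hs
      · have h := mem_U (τ := τ) (show i + 1 ≤ s by omega) (hS.mul hG (hH (s + 1)))
        have h2 : H (s + 1) * (τ * (τ ^ i * G)) = τ ^ (i + 1) * (G * H (s + 1)) := by ring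
        rwa [h2]
      · have his : i = s := by omega
        subst his
        rw [Finset.sum_range_succ] at hrel
        have h2 : H (i + 1) * (τ * (τ ^ i * G)) =
            -(∑ j ∈ Finset.range (i + 1), τ ^ j * (G * H j)) := by
          have h3 : τ ^ (i + 1) * H (i + 1) = -∑ j ∈ Finset.range (i + 1), τ ^ j * H j := by
            linear_combination hrel
          have h4 : H (i + 1) * (τ * (τ ^ i * G)) = G * (τ ^ (i + 1) * H (i + 1)) := by ring
          rw [h4, h3, mul_neg, Finset.mul_sum]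
          congr 1
          refine Finset.sum_congr rfl fun j _ => ?_
          ring
        rw [h2]
        refine neg_mem (Submodule.sum_mem _ fun j hj => ?_)
        exact mem_U (by have := Finset.mem_range.1 hj; omega) (hS.mul hG (hH j))
    | zero => simp
    | add w w' _ _ h1 h2 =>
      have h3 : H (s + 1) * (τ * (w + w')) = H (s + 1) * (τ * w) + H (s + 1) * (τ * w') := by ring
      rw [h3]
      exact add_mem h1 h2
    | smul a w _ h1 =>
      have h3 : H (s + 1) * (τ * (a • w)) = a • (H (s + 1) * (τ * w)) := by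
        simp only [Algebra.smul_def]
        ring
      rw [h3]
      exact Submodule.smul_mem _ _ h1
  have hpow : ∀ w ∈ S e E, ∀ i : ℕ,
      H (s + 1) ^ i * (τ ^ i * w) ∈ U S τ s (e + e1 * i) (E + E1 * i) := by
    intro w hw i
    induction i with
    | zero =>
      have h := mem_U (τ := τ) (Nat.zero_le s) hw
      simpa using h
    | succ i ih =>
      have h := hstep _ _ _ ih
      have h2 : e + e1 * i + e1 = e + e1 * (i + 1) := by ring
      have h2' : E + E1 * i + E1 = E + E1 * (i + 1) := by ring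
      rw [h2, h2'] at h
      have h3 : H (s + 1) ^ (i + 1) * (τ ^ (i + 1) * w) =
          H (s + 1) * (τ * (H (s + 1) ^ i * (τ ^ i * w))) := by ring
      rwa [h3]
  unfold U at hz
  induction hz using Submodule.span_induction with
  | mem z hz =>
    obtain ⟨i, hi, w, hw, rfl⟩ := hz
    have h := U_mul (τ := τ) hS (pow_mem hS (hH (s + 1)) (n - i)) (hpow w hw i)
    have h2 : e1 * (n - i) + (e + e1 * i) = e + e1 * n := by
      obtain ⟨j, rfl⟩ := Nat.exists_eq_add_of_le hi
      rw [Nat.add_sub_cancel_left]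
      ring
    have h2' : E1 * (n - i) + (E + E1 * i) = E + E1 * n := by
      obtain ⟨j, rfl⟩ := Nat.exists_eq_add_of_le hi
      rw [Nat.add_sub_cancel_left]
      ring
    rw [h2, h2'] at h
    have h3 : H (s + 1) ^ n * (τ ^ i * w) =
        H (s + 1) ^ (n - i) * (H (s + 1) ^ i * (τ ^ i * w)) := by
      have h5 : H (s + 1) ^ n = H (s + 1) ^ (n - i) * H (s + 1) ^ i := by
        rw [← pow_add, Nat.sub_add_cancel hi]
      rw [h5]
      ring
    rwa [h3]
  | zero => simp
  | add z z' _ _ h1 h2 =>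
    rw [mul_add]
    exact add_mem h1 h2
  | smul a z _ h1 =>
    rw [mul_smul_comm]
    exact Submodule.smul_mem _ _ h1

/-- extraction of a coefficient -/
theorem extract (hS : Gr S) {s : ℕ} (hI : Ind S τ (s + 1)) {e E e' : ℕ} {f v : Fin (N + 1) → R}
    (hf : ∀ j, f j ∈ S e' 0) (hv : ∀ j, v j ∈ U S τ s e E) (hv0 : v ≠ 0)
    (hrel : ∀ i j, f i * v j = f j * v i) :
    ∃ w : Fin (N + 1) → R, w ≠ 0 ∧ (∀ j, w j ∈ S e E) ∧ ∀ i j, f i * w j = f j * w i := by
  choose w h1 h2 using fun j => U_rep (hv j)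
  obtain ⟨j0, hj0⟩ := Function.ne_iff.1 hv0
  have h3 : ∃ a < s + 1, w j0 a ≠ 0 := by
    by_contra hcon
    push Not at hcon
    apply hj0
    rw [h2 j0]
    refine Finset.sum_eq_zero fun a ha => ?_
    rw [hcon a (Finset.mem_range.1 ha), mul_zero]
  obtain ⟨a, ha, ha0⟩ := h3
  refine ⟨fun j => w j a, fun h0 => ha0 (congrFun h0 j0), fun j => h1 j a, fun i j => ?_⟩
  have h4 := hI (e' + e) (0 + E) (fun b => f i * w j b - f j * w i b)
    (fun b => sub_mem (hS.mul (hf i) (h1 j b)) (hS.mul (hf j) (h1 i b))) (by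
      have h5 := hrel i j
      rw [h2 j, h2 i, Finset.mul_sum, Finset.mul_sum, ← sub_eq_zero, ← Finset.sum_sub_distrib] at h5
      rw [← h5]
      exact Finset.sum_congr rfl fun b _ => by ring) a ha
  exact sub_eq_zero.1 h4

/-- elimination of `τ` -/
theorem step (hS : Gr S) (τ : R) : ∃ e1 E1 : ℕ, ∀ (n e E : ℕ) (v : Fin (N + 1) → R),
    (∀ j, v j ∈ U S τ n e E) → v ≠ 0 → ∀ (e' : ℕ) (f : Fin (N + 1) → R), (∀ j, f j ∈ S e' 0) →
    (∀ i j, f i * v j = f j * v i) → ∃ w : Fin (N + 1) → R, w ≠ 0 ∧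
      (∀ j, w j ∈ S (e + e1 * n) (E + E1 * n)) ∧ ∀ i j, f i * w j = f j * w i := by
  classical
  by_cases hall : ∀ r, Ind S τ r
  · refine ⟨0, 0, fun n e E v hv hv0 e' f hf hrel => ?_⟩
    obtain ⟨w, h1, h2, h3⟩ := extract hS (hall (n + 1)) hf hv hv0 hrel
    exact ⟨w, h1, fun j => by simpa using h2 j, h3⟩
  · push Not at hall
    have hmin := Nat.find_spec hall
    have hmin' := fun r (hr : r < Nat.find hall) => not_not.1 (Nat.find_min hall hr)
    obtain ⟨r, hr⟩ : ∃ r, Nat.find hall = r := ⟨_, rfl⟩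
    rw [hr] at hmin hmin'
    unfold Ind at hmin
    push Not at hmin
    obtain ⟨e1, E1, H, hH, hsum, i, hi, hne⟩ := hmin
    obtain ⟨s', rfl⟩ : ∃ s', r = s' + 1 + 1 := by
      rcases r with _ | _ | s'
      · omega
      · exfalso
        rw [Finset.sum_range_one, pow_zero, one_mul] at hsum
        have : i = 0 := by omega
        rw [this] at hne
        exact hne hsum
      · exact ⟨s', rfl⟩
    have hI : Ind S τ (s' + 1) := hmin' _ (by omega)
    have hlead : H (s' + 1) ≠ 0 := by
      intro h0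
      rw [Finset.sum_range_succ, h0, mul_zero, add_zero] at hsum
      have h1 := hI e1 E1 H hH hsum
      rcases Nat.lt_or_ge i (s' + 1) with h2 | h2
      · exact hne (h1 i h2)
      · have : i = s' + 1 := by omega
        rw [this] at hne
        exact hne h0
    refine ⟨e1, E1, fun n e E v hv hv0 e' f hf hrel => ?_⟩
    refine extract hS hI hf (v := fun j => H (s' + 1) ^ n * v j)
      (fun j => reduce hS hH hsum (hv j)) ?_ ?_
    · intro h0
      apply hv0
      funext j
      have h1 := congrFun h0 j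
      exact (mul_eq_zero.1 h1).resolve_left (pow_ne_zero _ hlead)
    · intro i j
      linear_combination (H (s' + 1) ^ n) * hrel i j

end Pool.Agent.X332.KS
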