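import Pool.Agent.X332.KS.Seq

/-! Two dense orbits are not covered by two proper closed sets. -/

set_option autoImplicit false

namespace Pool.Agent.X332.KS

open MvPolynomial Filter
open Pool.Agent.TH8.OR (iter iter_hom orb tail eval_scale eval_aeval_F exists_iter)

variable {k : Type} [Field k] {D N : ℕ}

/-- the pullbacks of a polynomial under the iterates of a rational self-map -/
noncomputable def pull (P : Fin D → MvPolynomial (Fin D) k) (Q q : MvPolynomial (Fin D) k) :
    ℕ → MvPolynomial (Fin D) k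
  | 0 => q
  | i + 1 => hmg (pull P Q q i).totalDegree P Q (pull P Q q i)

theorem pull_eval {P : Fin D → MvPolynomial (Fin D) k} {Q q : MvPolynomial (Fin D) k}
    {t : ℕ → Fin D → k} {M : ℕ} (h : ∀ m ≥ M, eval (t m) Q ≠ 0 ∧
      ∀ i, t (m + 1) i * eval (t m) Q = eval (t m) (P i)) (i : ℕ) :
    ∀ m ≥ M, (eval (t m) (pull P Q q i) = 0 ↔ eval (t (m + i)) q = 0) := by
  induction i with
  | zero => exact fun m _ => Iff.rfl
  | succ i ih =>
    intro m hm
    rw [pull, hmg_eval le_rfl (h m hm).2, mul_eq_zero_iff_left (pow_ne_zero _ (h m hm).1),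
      ih (m + 1) (by omega)]
    have h1 : m + 1 + i = m + (i + 1) := by ring
    rw [h1]

variable {p : Ideal (MvPolynomial (Fin (N + 1)) k)}
  {F : Fin (N + 1) → MvPolynomial (Fin (N + 1)) k} {d : ℕ}
  {x : ℕ → Fin (N + 1) → k} (hp : p.IsPrime) (hF : ∀ j, (F j).IsHomogeneous d)
  (hdom : ∀ (e : ℕ) (H : MvPolynomial (Fin (N + 1)) k), H.IsHomogeneous e →
      (aeval F H ∈ p ↔ H ∈ p)) (hx0 : ∀ m, x m ≠ 0)
  (horb : ∀ m i j, eval (x m) (F i) * x (m + 1) j = eval (x m) (F j) * x (m + 1) i)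
  (hdense : ∀ (e : ℕ) (G : MvPolynomial (Fin (N + 1)) k), G.IsHomogeneous e →
      ((∀ m, eval (x m) G = 0) ↔ G ∈ p))
  (hnc : ¬ ∀ m i j, x m i * x 0 j = x m j * x 0 i)

include hF hdom in
theorem pullF (n : ℕ) {e : ℕ} {G : MvPolynomial (Fin (N + 1)) k} (hG : G.IsHomogeneous e)
    (hGp : G ∉ p) : (aeval (iter F n) G).IsHomogeneous (d ^ n * e) ∧ aeval (iter F n) G ∉ p := by
  have h0 : ∀ n, (aeval (iter F n) G).IsHomogeneous (d ^ n * e) := fun n =>
    hG.aeval _ (iter_hom hF n)
  refine ⟨h0 n, ?_⟩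
  induction n with
  | zero =>
    have h1 : aeval (iter F 0) G = G := by
      change aeval X G = G
      exact aeval_X_left_apply G
    rw [h1]
    exact hGp
  | succ n ih =>
    have h1 : aeval (iter F (n + 1)) G = aeval F (aeval (iter F n) G) := by
      rw [MvPolynomial.comp_aeval_apply]
      rfl
    rw [h1]
    exact fun h2 => ih ((hdom _ _ (h0 n)).1 h2)

include hp hF hdom hx0 horb hdense hnc in
/-- A form which does not vanish on the variety does not vanish along long pieces of the orbit. -/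
theorem exists_run {e : ℕ} {G : MvPolynomial (Fin (N + 1)) k} (hG : G.IsHomogeneous e)
    (hGp : G ∉ p) (n0 M : ℕ) : ∃ m ≥ M, ∀ i ≤ n0, eval (x (m + i)) G ≠ 0 := by
  choose l hl using exists_iter (x := x) hF hdom hx0 hdense
  have hH : (∏ i ∈ Finset.range (n0 + 1), iter F i (l i) * aeval (iter F i) G) ∉ p := by
    intro h1
    obtain ⟨i, _, h2⟩ := hp.prod_mem_iff.1 h1
    exact (hp.mem_or_mem h2).elim (hl i) (pullF hF hdom i hG hGp).2
  have h1 := tail hp hx0 hdense hnc (IsHomogeneous.prod (Finset.range (n0 + 1)) _ _ fun i _ =>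
    (iter_hom hF i (l i)).mul (pullF hF hdom i hG hGp).1) hH
  rw [not_eventually] at h1
  obtain ⟨m, hm, h2⟩ := (frequently_atTop.1 h1) M
  refine ⟨m, hm, fun i hi => ?_⟩
  rw [map_prod] at h2
  have h3 := (Finset.prod_ne_zero_iff.1 h2) i (Finset.mem_range.2 (by omega))
  rw [map_mul] at h3
  have ha : eval (x m) (iter F i (l i)) ≠ 0 := left_ne_zero_of_mul h3
  have hb : eval (x m) (aeval (iter F i) G) ≠ 0 := right_ne_zero_of_mul h3
  have h4 := orb hF hx0 horb i m
  have h5 : x (m + i) (l i) ≠ 0 := by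
    intro h0
    apply hx0 (m + i)
    funext j
    have h6 := h4 (l i) j
    rw [h0, mul_zero] at h6
    exact (mul_eq_zero.1 h6).resolve_left ha
  have h6 : x (m + i) = fun j => x (m + i) (l i) / eval (x m) (iter F i (l i)) *
      eval (x m) (iter F i j) := by
    funext j
    rw [div_mul_eq_mul_div, eq_div_iff ha]
    have := h4 (l i) j
    linear_combination this
  rw [h6, eval_scale hG, ← eval_aeval_F]
  exact mul_ne_zero (pow_ne_zero _ (div_ne_zero h5 ha)) hb

include hp hF hdom hx0 horb hdense hnc in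
/-- Two dense orbits are not covered by two proper closed sets. -/
theorem joint {t : ℕ → Fin D → k} {δ : ℕ → ℕ} (ht : OrbitGrowth t δ) {e : ℕ}
    {G : MvPolynomial (Fin (N + 1)) k} (hG : G.IsHomogeneous e) (hGp : G ∉ p)
    {q : MvPolynomial (Fin D) k} (hq : ¬ ∀ᶠ m in atTop, eval (t m) q = 0) :
    ¬ ∀ᶠ m in atTop, eval (x m) G * eval (t m) q = 0 := by
  classical
  intro hev
  obtain ⟨P, Q, _, _, h1⟩ := ht.iter 1
  obtain ⟨M1, hM1⟩ := eventually_atTop.1 h1
  obtain ⟨M2, hM2⟩ := eventually_atTop.1 hev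
  let I : ℕ →o Ideal (MvPolynomial (Fin D) k) :=
    ⟨fun n => Ideal.span {z | ∃ i ≤ n, z = pull P Q q i}, fun a b hab => Ideal.span_mono
      fun z ⟨i, hi, hz⟩ => ⟨i, hi.trans hab, hz⟩⟩
  obtain ⟨n0, hn0⟩ := WellFoundedGT.monotone_chain_condition I
  obtain ⟨m, hm, hrun⟩ := exists_run hp hF hdom hx0 horb hdense hnc hG hGp n0 (max M1 M2)
  have hm1 : m ≥ M1 := (le_max_left _ _).trans hm
  have hm2 : m ≥ M2 := (le_max_right _ _).trans hm
  have hpe := pull_eval (q := q) hM1
  have hle : ∀ z ∈ I n0, eval (t m) z = 0 := by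
    intro z hz
    change z ∈ Ideal.span _ at hz
    induction hz using Submodule.span_induction with
    | mem z hz =>
      obtain ⟨i, hi, rfl⟩ := hz
      rw [hpe i m hm1]
      exact (mul_eq_zero.1 (hM2 (m + i) (by omega))).resolve_left (hrun i hi)
    | zero => exact map_zero _
    | add a b _ _ ha hb => rw [map_add, ha, hb, add_zero]
    | smul a b _ hb => rw [smul_eq_mul, map_mul, hb, mul_zero]
  apply hq
  filter_upwards [eventually_ge_atTop m] with m' hm'
  obtain ⟨j, rfl⟩ := Nat.exists_eq_add_of_le hm'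
  rw [← hpe j m hm1]
  apply hle
  have h2 : pull P Q q j ∈ I (max j n0) := Ideal.subset_span ⟨j, le_max_left _ _, rfl⟩
  rwa [hn0 _ (le_max_right _ _)]

theorem one_ev (t : ℕ → Fin D → k) :
    ¬ ∀ᶠ m in atTop, eval (t m) (1 : MvPolynomial (Fin D) k) = 0 := by
  intro h
  obtain ⟨m, hm⟩ := h.exists
  rw [map_one] at hm
  exact one_ne_zero hm

/-- products of values of forms which do not belong to `p` and of polynomials which do not vanish
on the orbit `t` -/
def St {t : ℕ → Fin D → k} (hirr : Irred t) : Submonoid (ℕ → k) where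
  carrier := {u | ∃ (e : ℕ) (G : MvPolynomial (Fin (N + 1)) k) (q : MvPolynomial (Fin D) k),
    G.IsHomogeneous e ∧ G ∉ p ∧ (¬ ∀ᶠ m in atTop, eval (t m) q = 0) ∧
    u = fun m => eval (x m) G * eval (t m) q}
  one_mem' := ⟨0, 1, 1, isHomogeneous_one _ _, fun h => hp.ne_top ((Ideal.eq_top_iff_one p).2 h),
    one_ev t, by
      funext m
      simp⟩
  mul_mem' := by
    rintro _ _ ⟨e, G, q, hG, hGp, hq, rfl⟩ ⟨e', G', q', hG', hGp', hq', rfl⟩
    refine ⟨e + e', G * G', q * q', hG.mul hG', fun h => (hp.mem_or_mem h).elim hGp hGp',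
      fun h => ?_, ?_⟩
    · simp only [map_mul] at h
      exact (hirr q q' h).elim hq hq'
    · funext m
      simp only [Pi.mul_apply, map_mul]
      ring

end Pool.Agent.X332.KS
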