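import Pool.Agent.X332.KS.Joint

/-! The degrees of the iterates of a rational self-map with an orbit which is linear over an orbit of
another rational self-map. -/

set_option autoImplicit false

namespace Pool.Agent.X332.KS

open MvPolynomial Filter
open Pool.Agent.TH8.OR (iter iter_hom orb GivenBy exists_R Sm tail exists_iter point exists_X
  Invertible invertible_of_growth)

variable {k : Type} [Field k] {D N : ℕ}

section main

variable {p : Ideal (MvPolynomial (Fin (N + 1)) k)}
  {F : Fin (N + 1) → MvPolynomial (Fin (N + 1)) k} {d : ℕ}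

theorem assemble {t : ℕ → Fin D → k} {δ : ℕ → ℕ} (ht : OrbitGrowth t δ)
    (hF : ∀ j, (F j).IsHomogeneous d)
    {x : ℕ → Fin (N + 1) → k} (hx0 : ∀ m, x m ≠ 0)
    (horb : ∀ m i j, eval (x m) (F i) * x (m + 1) j = eval (x m) (F j) * x (m + 1) i)
    (hit : ∀ n, ∃ j, iter F n j ∉ p)
    {R : Type} [Field R] [Algebra k R] (π : (ℕ → k) →ₐ[k] R)
    (hπ : ∀ u : ℕ → k, (∀ᶠ m in atTop, u m = 0) → π u = 0)
    (hπt : ∀ q : MvPolynomial (Fin D) k, (¬ ∀ᶠ m in atTop, eval (t m) q = 0) →
      π (fun m => eval (t m) q) ≠ 0)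
    (hker : ∀ (e : ℕ) (G : MvPolynomial (Fin (N + 1)) k), G.IsHomogeneous e →
      (aeval (fun j => π fun m => x m j) G = 0 ↔ G ∈ p))
    {C : ℕ} (hrec : ∀ j, RecD t C (fun m => x m j)) :
    ∃ a b : ℕ, ∀ n, ∃ e ≤ a + b * ∑ i ∈ Finset.range n, δ i, GivenBy p F n e := by
  classical
  choose r hr using fun j => rec_rep π hπ hπt ht (hrec j)
  let u : ((j : Fin (N + 1)) × Fin (r j)) → R := fun q => π fun m => x (m + q.2) q.1
  set τ : Fin D → R := fun j => π fun m => t m j with hτ
  obtain ⟨D0, D1, h2⟩ := core τ hker u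
  refine ⟨D0, D1 * ((N + 1) * C), fun n => ?_⟩
  set S := ∑ i ∈ Finset.range n, δ i with hSdef
  choose z hz0 hzd b hbd hb using fun j => hr j n
  have hZ0 : aeval τ (∏ j, z j) ≠ 0 := by
    rw [map_prod]
    exact Finset.prod_ne_zero_iff.2 fun j _ => hz0 j
  have hY0 : ∃ j, π (fun m => x (m + n) j) ≠ 0 := by
    by_contra hcon
    push Not at hcon
    choose jj hjj using fun m => Function.ne_iff.1 (hx0 (m + n))
    have h3 : (1 : ℕ → k) = ∑ j, (fun m => if j = jj m then (x (m + n) j)⁻¹ else 0) *
        fun m => x (m + n) j := by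
      funext m
      rw [Finset.sum_apply, Finset.sum_eq_single (jj m)]
      · have h4 : x (m + n) (jj m) ≠ 0 := hjj m
        simp [h4]
      · intro j _ hj
        simp [hj]
      · intro h
        exact absurd (Finset.mem_univ _) h
    have h4 := congrArg π h3
    rw [map_one, map_sum] at h4
    have h5 : ∀ j, π ((fun m => if j = jj m then (x (m + n) j)⁻¹ else 0) *
        fun m => x (m + n) j) = 0 := by
      intro j
      rw [map_mul, hcon j, mul_zero]
    rw [Finset.sum_congr rfl fun j _ => h5 j, Finset.sum_const_zero] at h4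
    exact one_ne_zero h4
  have hprod : ∀ s : Finset (Fin (N + 1)), (∏ j ∈ s, z j).totalDegree ≤ s.card * (C * S) := by
    intro s
    refine (totalDegree_finsetProd s z).trans ?_
    refine (Finset.sum_le_card_nsmul s _ (C * S) fun j _ => hzd j).trans ?_
    rw [smul_eq_mul]
  obtain ⟨e, G, he, g1, g2, g3⟩ := h2 ((N + 1) * (C * S))
    (fun j => aeval τ (∏ j, z j) * π fun m => x (m + n) j) (by
      obtain ⟨j, hj⟩ := hY0
      intro h0
      exact mul_ne_zero hZ0 hj (congrFun h0 j)) (by
      intro j
      refine ⟨fun q => if q.1 = j then b q.1 q.2 * ∏ j' ∈ Finset.univ.erase q.1, z j' else 0,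
        fun q => ?_, ?_⟩
      · by_cases hq : q.1 = j
        · simp only [hq, if_true]
          refine (totalDegree_mul _ _).trans ?_
          have h4 := hprod (Finset.univ.erase j)
          rw [Finset.card_erase_of_mem (Finset.mem_univ _), Finset.card_univ, Fintype.card_fin,
            Nat.add_sub_cancel] at h4
          have h5 : (b q.1 q.2).totalDegree ≤ C * S := hbd q.1 q.2
          calc _ ≤ C * S + N * (C * S) := Nat.add_le_add h5 h4
            _ = (N + 1) * (C * S) := by ring
        · simp [hq]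
      · rw [Fintype.sum_sigma, Finset.sum_eq_single j]
        · simp only [if_true]
          rw [← Finset.mul_prod_erase Finset.univ z (Finset.mem_univ j), map_mul, mul_right_comm,
            hb j, Finset.sum_mul]
          refine Finset.sum_congr rfl fun l _ => ?_
          rw [map_mul]
          ring
        · intro j' _ hj'
          refine Finset.sum_eq_zero fun l _ => ?_
          simp [hj']
        · intro h
          exact absurd (Finset.mem_univ _) h)
    (d ^ n) (iter F n) (iter_hom hF n) (hit n) (by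
      intro i j
      rw [pi_mv π x (iter F n i), pi_mv π x (iter F n j)]
      have h4 : (fun m => eval (x m) (iter F n i)) * (fun m => x (m + n) j)
          = (fun m => eval (x m) (iter F n j)) * fun m => x (m + n) i := by
        funext m
        exact orb hF hx0 horb n m i j
      have h5 := congrArg π h4
      rw [map_mul, map_mul] at h5
      linear_combination (aeval τ (∏ j, z j)) * h5)
  exact ⟨e, by
    calc e ≤ _ := he
      _ = D0 + D1 * ((N + 1) * C) * S := by ring, G, g1, g2, g3⟩

variable {x : ℕ → Fin (N + 1) → k} (hp : p.IsPrime) (hF : ∀ j, (F j).IsHomogeneous d)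
  (hdom : ∀ (e : ℕ) (H : MvPolynomial (Fin (N + 1)) k), H.IsHomogeneous e →
      (aeval F H ∈ p ↔ H ∈ p)) (hx0 : ∀ m, x m ≠ 0)
  (horb : ∀ m i j, eval (x m) (F i) * x (m + 1) j = eval (x m) (F j) * x (m + 1) i)
  (hdense : ∀ (e : ℕ) (G : MvPolynomial (Fin (N + 1)) k), G.IsHomogeneous e →
      ((∀ m, eval (x m) G = 0) ↔ G ∈ p))

include hp hF hdom hx0 horb hdense in
/-- the degrees of the iterates -/
theorem growth {t : ℕ → Fin D → k} {δ : ℕ → ℕ} (ht : OrbitGrowth t δ) {C : ℕ}
    (hrec : ∀ j, RecD t C fun m => x m j) :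
    ∃ a b : ℕ, ∀ n, ∃ e ≤ a + b * ∑ i ∈ Finset.range n, δ i, GivenBy p F n e := by
  by_cases hnc : ∀ m i j, x m i * x 0 j = x m j * x 0 i
  · exact ⟨0, 0, fun n => ⟨0, Nat.zero_le _, point hF hx0 horb hdense hnc n⟩⟩
  · obtain ⟨R, _, _, π, h1, h2⟩ := exists_R (St (x := x) hp ht.irred) (by
      rintro _ ⟨e, G, q, hG, hGp, hq, rfl⟩
      exact joint hp hF hdom hx0 horb hdense hnc ht hG hGp hq)
    refine assemble ht hF hx0 horb (exists_iter hF hdom hx0 hdense) π h1 (fun q hq h0 => ?_)
      (fun e G hG => ?_) hrec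
    · refine h2 _ ⟨0, 1, q, isHomogeneous_one _ _, fun h => hp.ne_top
        ((Ideal.eq_top_iff_one p).2 h), hq, rfl⟩ ?_
      rw [← h0]
      congr 1
      funext m
      simp
    rw [pi_mv]
    constructor
    · intro h0
      by_contra hGp
      refine h2 _ ⟨e, G, 1, hG, hGp, one_ev t, rfl⟩ ?_
      rw [← h0]
      congr 1
      funext m
      simp
    · intro hGp
      have h3 : (fun m => eval (x m) G) = 0 := funext ((hdense e G hG).2 hGp)
      rw [h3, map_zero]

end main

section tower

/-- the condition on the iterates of the rational self-map in `OrbitGrowth` -/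
def It (t : ℕ → Fin D → k) (δ : ℕ → ℕ) : Prop :=
  ∀ n, ∃ (P : Fin D → MvPolynomial (Fin D) k) (Q : MvPolynomial (Fin D) k),
    (∀ i, (P i).totalDegree ≤ δ n) ∧ Q.totalDegree ≤ δ n ∧
      ∀ᶠ m in atTop, eval (t m) Q ≠ 0 ∧ ∀ i, t (m + n) i * eval (t m) Q = eval (t m) (P i)

theorem It.mono {t : ℕ → Fin D → k} {δ δ' : ℕ → ℕ} (h : It t δ)
    (hδ : ∀ n, δ n ≤ δ' n) : It t δ' := by
  intro n
  obtain ⟨P, Q, h1, h2, h3⟩ := h n
  exact ⟨P, Q, fun i => (h1 i).trans (hδ n), h2.trans (hδ n), h3⟩

/-- The sequence `v` satisfies a system of linear equations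
`q v_i(m + 1) = Σ_j A_{i j} v_j(m) + B_i`, whose coefficients are polynomials in `t m`. -/
def LinearOver {r : ℕ} (t : ℕ → Fin D → k) (v : ℕ → Fin r → k) : Prop :=
  ∃ (q : MvPolynomial (Fin D) k) (A : Fin r → Fin r → MvPolynomial (Fin D) k)
    (B : Fin r → MvPolynomial (Fin D) k), ∀ᶠ m in atTop, eval (t m) q ≠ 0 ∧
      ∀ i, eval (t m) q * v (m + 1) i = ∑ j, eval (t m) (A i j) * v m j + eval (t m) (B i)

/-- Towers of linear systems: the only sequence in the affine space of dimension `0` is a tower of
`0` linear systems; and if `t` is a tower of `L` linear systems and `v` is `LinearOver t`, then the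
sequence of the pairs `(t m, v m)` is a tower of `L + 1` linear systems. -/
inductive Tower : ∀ {D : ℕ}, (ℕ → Fin D → k) → ℕ → Prop
  | base (t : ℕ → Fin 0 → k) : Tower t 0
  | step {D r L : ℕ} {t : ℕ → Fin D → k} {v : ℕ → Fin r → k} : Tower t L → LinearOver t v →
      Tower (fun m => Fin.append (t m) (v m)) (L + 1)

theorem eval_left {r : ℕ} (s : Fin D → k) (v : Fin r → k) (q : MvPolynomial (Fin D) k) :
    eval (Fin.append s v) (rename (Fin.castAdd r) q) = eval s q := by
  rw [eval_rename]
  congr 1
  congr 1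
  funext i
  exact Fin.append_left _ _ _

theorem step_growth {r : ℕ} {t : ℕ → Fin D → k} {v : ℕ → Fin r → k} {δ : ℕ → ℕ}
    (ht : It t δ) (hv : LinearOver t v) :
    ∃ C : ℕ, It (fun m => Fin.append (t m) (v m))
      fun n => δ n + 1 + C * ∑ i ∈ Finset.range n, δ i := by
  classical
  obtain ⟨q, A, B, hlin⟩ := hv
  obtain ⟨C, hC⟩ : ∃ C : ℕ, q.totalDegree ≤ C ∧ (∀ i j, (A i j).totalDegree ≤ C) ∧
      ∀ i, (B i).totalDegree ≤ C := by
    refine ⟨q.totalDegree + ∑ i, ∑ j, (A i j).totalDegree + ∑ i, (B i).totalDegree,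
      by omega, fun i j => ?_, fun i => ?_⟩
    · have h1 := Finset.single_le_sum (f := fun j => (A i j).totalDegree)
        (fun _ _ => Nat.zero_le _) (Finset.mem_univ j)
      have h2 := Finset.single_le_sum (f := fun i => ∑ j, (A i j).totalDegree)
        (fun _ _ => Nat.zero_le _) (Finset.mem_univ i)
      omega
    · have h1 := Finset.single_le_sum (f := fun i => (B i).totalDegree)
        (fun _ _ => Nat.zero_le _) (Finset.mem_univ i)
      omega
  obtain ⟨hq, hA, hB⟩ := hC
  choose P Q hP hQ hPQ using ht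
  have key : ∀ n, ∃ (V : Fin r → MvPolynomial (Fin (D + r)) k) (W : MvPolynomial (Fin D) k),
      (∀ i, (V i).totalDegree ≤ 1 + C * ∑ i ∈ Finset.range n, δ i) ∧
      W.totalDegree ≤ C * ∑ i ∈ Finset.range n, δ i ∧
      ∀ᶠ m in atTop, eval (t m) W ≠ 0 ∧
        ∀ i, v (m + n) i * eval (t m) W = eval (Fin.append (t m) (v m)) (V i) := by
    intro n
    induction n with
    | zero =>
      refine ⟨fun i => X (Fin.natAdd D i), 1, fun i => by simp, by simp,
        Eventually.of_forall fun m => ⟨by simp, fun i => ?_⟩⟩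
      rw [eval_X, Fin.append_right, map_one, mul_one, add_zero]
    | succ n ih =>
      obtain ⟨V, W, hV, hW, hVW⟩ := ih
      refine ⟨fun i => ∑ j, rename (Fin.castAdd r) (hmg C (P n) (Q n) (A i j)) * V j +
        rename (Fin.castAdd r) (hmg C (P n) (Q n) (B i) * W), hmg C (P n) (Q n) q * W,
        fun i => ?_, ?_, ?_⟩
      · have h1 : ∀ q' : MvPolynomial (Fin D) k, q'.totalDegree ≤ C →
            (hmg C (P n) (Q n) q').totalDegree ≤ C * δ n := fun q' h => hmg_deg (hP n) (hQ n) h
        rw [Finset.sum_range_succ, mul_add]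
        refine (totalDegree_add _ _).trans (max_le ?_ ?_)
        · refine (totalDegree_finsetSum _ _).trans (Finset.sup_le fun j _ => ?_)
          refine (totalDegree_mul _ _).trans ?_
          have h2 := (totalDegree_rename_le (Fin.castAdd r)
            (hmg C (P n) (Q n) (A i j))).trans (h1 _ (hA i j))
          have h3 := hV j
          omega
        · refine (totalDegree_rename_le _ _).trans ((totalDegree_mul _ _).trans ?_)
          have h2 := h1 _ (hB i)
          omega
      · rw [Finset.sum_range_succ, mul_add]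
        refine (totalDegree_mul _ _).trans ?_
        have h2 := hmg_deg (hP n) (hQ n) hq
        omega
      · have hlin' := (tendsto_add_atTop_nat n).eventually hlin
        filter_upwards [hVW, hPQ n, hlin'] with m e1 e2 e3
        have h4 : ∀ q' : MvPolynomial (Fin D) k, q'.totalDegree ≤ C →
            eval (t m) (hmg C (P n) (Q n) q') = eval (t m) (Q n) ^ C * eval (t (m + n)) q' :=
          fun q' h => hmg_eval h e2.2
        refine ⟨?_, fun i => ?_⟩
        · rw [map_mul, h4 q hq]
          exact mul_ne_zero (mul_ne_zero (pow_ne_zero _ e2.1) e3.1) e1.1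
        · rw [map_add, map_sum, eval_left, map_mul, map_mul, h4 q hq, h4 _ (hB i)]
          have h5 := e3.2 i
          have h6 : ∑ j, eval (Fin.append (t m) (v m))
              (rename (Fin.castAdd r) (hmg C (P n) (Q n) (A i j)) * V j) =
              eval (t m) (Q n) ^ C * (∑ j, eval (t (m + n)) (A i j) * v (m + n) j) *
                eval (t m) W := by
            rw [Finset.mul_sum, Finset.sum_mul]
            refine Finset.sum_congr rfl fun j _ => ?_
            rw [map_mul, eval_left, h4 _ (hA i j), ← e1.2 j]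
            ring
          rw [h6, ← add_assoc]
          linear_combination (eval (t m) (Q n) ^ C * eval (t m) W) * h5
  refine ⟨C, fun n => ?_⟩
  obtain ⟨V, W, hV, hW, hVW⟩ := key n
  refine ⟨Fin.append (fun i => rename (Fin.castAdd r) (P n i * W))
    (fun j => V j * rename (Fin.castAdd r) (Q n)), rename (Fin.castAdd r) (Q n * W),
    fun i => ?_, ?_, ?_⟩
  · refine Fin.addCases (fun i => ?_) (fun j => ?_) i
    · rw [Fin.append_left]
      refine (totalDegree_rename_le _ _).trans ((totalDegree_mul _ _).trans ?_)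
      have := hP n i
      beta_reduce
      omega
    · rw [Fin.append_right]
      refine (totalDegree_mul _ _).trans ?_
      have h1 := (totalDegree_rename_le (Fin.castAdd r) (Q n)).trans (hQ n)
      have := hV j
      beta_reduce
      omega
  · refine (totalDegree_rename_le _ _).trans ((totalDegree_mul _ _).trans ?_)
    have := hQ n
    beta_reduce
    omega
  · filter_upwards [hVW, hPQ n] with m e1 e2
    refine ⟨?_, fun i => ?_⟩
    · rw [eval_left, map_mul]
      exact mul_ne_zero e2.1 e1.1
    · rw [eval_left, map_mul]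
      refine Fin.addCases (fun i => ?_) (fun j => ?_) i
      · rw [Fin.append_left, Fin.append_left, eval_left, map_mul, ← e2.2 i]
        ring
      · rw [Fin.append_right, Fin.append_right, map_mul, eval_left, ← e1.2 j]
        ring

theorem sum_pow_le (c L n : ℕ) :
    ∑ i ∈ Finset.range n, c * (i + 1) ^ L ≤ c * (n + 1) ^ (L + 1) := by
  refine (Finset.sum_le_card_nsmul _ _ (c * (n + 1) ^ L) fun i hi => ?_).trans ?_
  · exact Nat.mul_le_mul_left _ (Nat.pow_le_pow_left (by
      have := Finset.mem_range.1 hi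
      omega) _)
  · rw [Finset.card_range, smul_eq_mul, pow_succ]
    calc n * (c * (n + 1) ^ L) = c * ((n + 1) ^ L * n) := by ring
      _ ≤ c * ((n + 1) ^ L * (n + 1)) := by gcongr; omega

theorem Tower.growth {L : ℕ} {t : ℕ → Fin D → k} (h : Tower t L) :
    ∃ c : ℕ, 1 ≤ c ∧ It t fun n => c * (n + 1) ^ L := by
  induction h with
  | base t =>
    exact ⟨1, le_rfl, fun n => ⟨fun i => i.elim0, 1, fun i => i.elim0, by simp,
      Eventually.of_forall fun m => ⟨by simp, fun i => i.elim0⟩⟩⟩
  | @step D r L t v _ hv ih =>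
    obtain ⟨c, hc, ih⟩ := ih
    obtain ⟨C, hC⟩ := step_growth ih hv
    refine ⟨c + 1 + C * c, by omega, hC.mono fun n => ?_⟩
    have h1 := sum_pow_le c L n
    have h2 : c * (n + 1) ^ L ≤ c * (n + 1) ^ (L + 1) :=
      Nat.mul_le_mul_left _ (Nat.pow_le_pow_right (by omega) (by omega))
    have h3 : 1 ≤ (n + 1) ^ (L + 1) := Nat.one_le_pow _ _ (by omega)
    calc c * (n + 1) ^ L + 1 + C * ∑ i ∈ Finset.range n, c * (i + 1) ^ L
        ≤ c * (n + 1) ^ (L + 1) + (n + 1) ^ (L + 1) + C * (c * (n + 1) ^ (L + 1)) :=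
          Nat.add_le_add (Nat.add_le_add h2 h3) (Nat.mul_le_mul_left _ h1)
      _ = (c + 1 + C * c) * (n + 1) ^ (L + 1) := by ring

end tower

end Pool.Agent.X332.KS
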