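import Pool.Agent.X332.KS.Core
import Pool.Agent.TH8.OR.D
import Pool.Agent.TH8.OR.E

/-! Linear recurrences whose coefficients are polynomials along an orbit of a rational self-map. -/

set_option autoImplicit false

namespace Pool.Agent.X332.KS

open MvPolynomial Filter

variable {k : Type} [Field k] {D : ℕ}

/-- The polynomials which vanish at `t m` for all large `m` form a prime ideal: they are the
equations of an irreducible affine variety `Y` in which all tails of the sequence `t` are
Zariski-dense. -/
def Irred (t : ℕ → Fin D → k) : Prop :=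
  ∀ q q' : MvPolynomial (Fin D) k, (∀ᶠ m in atTop, eval (t m) q * eval (t m) q' = 0) →
    (∀ᶠ m in atTop, eval (t m) q = 0) ∨ ∀ᶠ m in atTop, eval (t m) q' = 0

/-- The sequence `t` is (for all large `m`) an orbit of a rational self-map `g` of an irreducible
affine variety `Y`, it is Zariski-dense in `Y`, and `g ^ n` is given by rational functions, defined
at `t m` for all large `m`, whose numerators and whose common denominator have degree at most
`δ n`. -/
structure OrbitGrowth (t : ℕ → Fin D → k) (δ : ℕ → ℕ) : Prop where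
  irred : Irred t
  iter : ∀ n, ∃ (P : Fin D → MvPolynomial (Fin D) k) (Q : MvPolynomial (Fin D) k),
    (∀ i, (P i).totalDegree ≤ δ n) ∧ Q.totalDegree ≤ δ n ∧
      ∀ᶠ m in atTop, eval (t m) Q ≠ 0 ∧ ∀ i, t (m + n) i * eval (t m) Q = eval (t m) (P i)

/-- homogenization -/
noncomputable def hmg (C : ℕ) (P : Fin D → MvPolynomial (Fin D) k) (Q q : MvPolynomial (Fin D) k) :
    MvPolynomial (Fin D) k :=
  ∑ α ∈ q.support, MvPolynomial.C (q.coeff α) * ((∏ i, P i ^ α i) * Q ^ (C - ∑ i, α i))

theorem sum_le {C : ℕ} {q : MvPolynomial (Fin D) k} (hq : q.totalDegree ≤ C) {α : Fin D →₀ ℕ}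
    (hα : α ∈ q.support) : ∑ i, α i ≤ C := by
  refine le_trans ?_ ((le_totalDegree hα).trans hq)
  rw [Finsupp.sum_fintype _ _ (by simp)]

theorem hmg_deg {C E : ℕ} {P : Fin D → MvPolynomial (Fin D) k} {Q q : MvPolynomial (Fin D) k}
    (hP : ∀ i, (P i).totalDegree ≤ E) (hQ : Q.totalDegree ≤ E) (hq : q.totalDegree ≤ C) :
    (hmg C P Q q).totalDegree ≤ C * E := by
  unfold hmg
  refine (totalDegree_finsetSum _ _).trans (Finset.sup_le fun α hα => ?_)
  have h1 := sum_le hq hα
  refine (totalDegree_mul _ _).trans ?_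
  rw [totalDegree_C, zero_add]
  refine (totalDegree_mul _ _).trans ?_
  have h2 : (∏ i, P i ^ α i).totalDegree ≤ (∑ i, α i) * E := by
    refine (totalDegree_finsetProd _ _).trans ?_
    rw [Finset.sum_mul]
    refine Finset.sum_le_sum fun i _ => ?_
    exact (totalDegree_pow _ _).trans (Nat.mul_le_mul_left _ (hP i))
  have h3 : (Q ^ (C - ∑ i, α i)).totalDegree ≤ (C - ∑ i, α i) * E :=
    (totalDegree_pow _ _).trans (Nat.mul_le_mul_left _ hQ)
  calc _ ≤ (∑ i, α i) * E + (C - ∑ i, α i) * E := Nat.add_le_add h2 h3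
    _ = C * E := by rw [← add_mul, Nat.add_sub_cancel' h1]

theorem hmg_eval {C : ℕ} {P : Fin D → MvPolynomial (Fin D) k} {Q q : MvPolynomial (Fin D) k}
    (hq : q.totalDegree ≤ C) {s t : Fin D → k} (h : ∀ i, s i * eval t Q = eval t (P i)) :
    eval t (hmg C P Q q) = eval t Q ^ C * eval s q := by
  rw [eval_eq' s q, hmg, map_sum, Finset.mul_sum]
  refine Finset.sum_congr rfl fun α hα => ?_
  have h1 := sum_le hq hα
  rw [map_mul, eval_C, map_mul, map_prod, map_pow]
  have h2 : ∏ i, eval t (P i ^ α i) = (∏ i, s i ^ α i) * eval t Q ^ (∑ i, α i) := by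
    rw [← Finset.prod_pow_eq_pow_sum, ← Finset.prod_mul_distrib]
    refine Finset.prod_congr rfl fun i _ => ?_
    rw [map_pow, ← h i, mul_pow]
  have h3 : eval t Q ^ C = eval t Q ^ (∑ i, α i) * eval t Q ^ (C - ∑ i, α i) := by
    rw [← pow_add, Nat.add_sub_cancel' h1]
  rw [h2, h3]
  ring

/-- The sequence `f` satisfies a nontrivial linear recurrence whose coefficients are polynomials of
degree at most `C` in `t m`. -/
def RecD (t : ℕ → Fin D → k) (C : ℕ) (f : ℕ → k) : Prop :=
  ∃ (r : ℕ) (a : ℕ → MvPolynomial (Fin D) k),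
    (∃ i ≤ r, ¬ ∀ᶠ m in atTop, eval (t m) (a i) = 0) ∧ (∀ i ≤ r, (a i).totalDegree ≤ C) ∧
    ∀ᶠ m in atTop, ∑ i ∈ Finset.range (r + 1), eval (t m) (a i) * f (m + i) = 0

theorem RecD.normal {t : ℕ → Fin D → k} {C : ℕ} {f : ℕ → k} (hf : RecD t C f) :
    ∃ (r : ℕ) (a : ℕ → MvPolynomial (Fin D) k), (¬ ∀ᶠ m in atTop, eval (t m) (a r) = 0) ∧
      (∀ i ≤ r, (a i).totalDegree ≤ C) ∧
      ∀ᶠ m in atTop, ∑ i ∈ Finset.range (r + 1), eval (t m) (a i) * f (m + i) = 0 := by
  obtain ⟨r, a, h1, h2, h3⟩ := hf
  induction r with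
  | zero =>
    obtain ⟨i, hi, h4⟩ := h1
    have : i = 0 := by omega
    subst this
    exact ⟨0, a, h4, h2, h3⟩
  | succ r ih =>
    by_cases h0 : ∀ᶠ m in atTop, eval (t m) (a (r + 1)) = 0
    · refine ih ?_ (fun i hi => h2 i (by omega)) ?_
      · obtain ⟨i, hi, h4⟩ := h1
        refine ⟨i, ?_, h4⟩
        rcases Nat.lt_or_ge i (r + 1) with h5 | h5
        · omega
        · exfalso
          have : i = r + 1 := by omega
          rw [this] at h4
          exact h4 h0
      · filter_upwards [h0, h3] with m e1 e2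
        rw [Finset.sum_range_succ, e1, zero_mul, add_zero] at e2
        exact e2
    · exact ⟨r + 1, a, h0, h2, h3⟩

section proj

variable {R : Type} [Field R] [Algebra k R] (π : (ℕ → k) →ₐ[k] R)

theorem pi_mv (t : ℕ → Fin D → k) (G : MvPolynomial (Fin D) k) :
    aeval (fun j => π fun m => t m j) G = π fun m => eval (t m) G := by
  have h := MvPolynomial.comp_aeval_apply (f := fun j => fun m => t m j) π G
  rw [← h]
  congr 1
  funext m
  have h3 := MvPolynomial.comp_aeval_apply (f := fun j => fun m => t m j)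
    (Pi.evalAlgHom k (fun _ : ℕ => k) m) G
  have h2 : (Pi.evalAlgHom k (fun _ : ℕ => k) m) (aeval (fun j => fun m => t m j) G)
      = (aeval (fun j => fun m => t m j) G : ℕ → k) m := rfl
  rw [← h2, h3]
  rfl

theorem nz (hπ : ∀ u : ℕ → k, (∀ᶠ m in atTop, u m = 0) → π u = 0) {u : ℕ → k}
    (hu : ∀ᶠ m in atTop, u m ≠ 0) : π u ≠ 0 := by
  intro h1
  have h4 : π u * π (fun m : ℕ => (u m)⁻¹) = 1 := by
    rw [← map_mul]
    have h5 : u * (fun m : ℕ => (u m)⁻¹) = 1 + (u * (fun m : ℕ => (u m)⁻¹) - 1) := by ring
    rw [h5, map_add, map_one, hπ _ ?_, add_zero]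
    filter_upwards [hu] with m hm
    rw [Pi.sub_apply, Pi.mul_apply, Pi.one_apply, mul_inv_cancel₀ hm, sub_self]
  rw [h1, zero_mul] at h4
  exact zero_ne_one h4

theorem rec_rep (hπ : ∀ u : ℕ → k, (∀ᶠ m in atTop, u m = 0) → π u = 0)
    {t : ℕ → Fin D → k} (hπt : ∀ q : MvPolynomial (Fin D) k, (¬ ∀ᶠ m in atTop, eval (t m) q = 0) →
      π (fun m => eval (t m) q) ≠ 0) {δ : ℕ → ℕ} (ht : OrbitGrowth t δ) {C : ℕ} {f : ℕ → k}
    (hf : RecD t C f) :
    ∃ r : ℕ, ∀ n : ℕ, ∃ z : MvPolynomial (Fin D) k, aeval (fun j => π fun m => t m j) z ≠ 0 ∧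
      z.totalDegree ≤ C * ∑ i ∈ Finset.range n, δ i ∧
      ∃ b : Fin r → MvPolynomial (Fin D) k,
        (∀ l, (b l).totalDegree ≤ C * ∑ i ∈ Finset.range n, δ i) ∧
        aeval (fun j => π fun m => t m j) z * π (fun m => f (m + n)) =
          ∑ l, aeval (fun j => π fun m => t m j) (b l) * π (fun m => f (m + l)) := by
  classical
  obtain ⟨r, a, h1, h2, h3⟩ := hf.normal
  choose P Q hP hQ hPQ using ht.iter
  set τ : Fin D → R := fun j => π fun m => t m j with hτ
  let sh : ℕ → ℕ → MvPolynomial (Fin D) k := fun n i => hmg C (P n) (Q n) (a i)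
  have hdeg : ∀ n, ∀ i ≤ r, (sh n i).totalDegree ≤ C * δ n := fun n i hi =>
    hmg_deg (hP n) (hQ n) (h2 i hi)
  have hrec : ∀ n : ℕ, ∑ i ∈ Finset.range (r + 1),
      aeval τ (sh n i) * π (fun m => f (m + (n + i))) = 0 := by
    intro n
    have h4 : π (∑ i ∈ Finset.range (r + 1),
        (fun m : ℕ => eval (t m) (sh n i)) * fun m : ℕ => f (m + (n + i))) = 0 := by
      apply hπ
      have h3' := (tendsto_add_atTop_nat n).eventually h3
      filter_upwards [hPQ n, h3'] with m e1 e2
      rw [Finset.sum_apply]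
      rw [← mul_zero (eval (t m) (Q n) ^ C), ← e2, Finset.mul_sum]
      refine Finset.sum_congr rfl fun i hi => ?_
      rw [Pi.mul_apply, hmg_eval (h2 i (by have := Finset.mem_range.1 hi; omega)) e1.2,
        ← add_assoc, mul_assoc]
    rw [map_sum] at h4
    rw [← h4]
    refine Finset.sum_congr rfl fun i _ => ?_
    rw [map_mul, hτ, pi_mv]
  have hlead : ∀ n, aeval τ (sh n r) ≠ 0 := by
    intro n
    rw [hτ, pi_mv]
    refine hπt _ fun hev => h1 ?_
    rw [← map_add_atTop_eq_nat n, eventually_map]
    filter_upwards [hPQ n, hev] with m e1 e2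
    rw [hmg_eval (h2 r le_rfl) e1.2] at e2
    exact (mul_eq_zero.1 e2).resolve_left (pow_ne_zero _ e1.1)
  rcases Nat.eq_zero_or_pos r with h0 | hr
  · refine ⟨0, fun n => ⟨1, by simp, by simp, fun l => l.elim0, fun l => l.elim0, ?_⟩⟩
    subst h0
    have h4 := hrec n
    rw [zero_add, Finset.sum_range_one, add_zero] at h4
    rw [(mul_eq_zero.1 h4).resolve_left (hlead n)]
    simp
  · refine ⟨r, ?_⟩
    have key : ∀ n : ℕ, ∃ z : MvPolynomial (Fin D) k, aeval τ z ≠ 0 ∧
        z.totalDegree ≤ C * ∑ i ∈ Finset.range n, δ i ∧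
        ∀ i < r, ∃ b : Fin r → MvPolynomial (Fin D) k,
        (∀ l, (b l).totalDegree ≤ C * ∑ i ∈ Finset.range n, δ i) ∧
        aeval τ z * π (fun m => f (m + (n + i))) =
          ∑ l, aeval τ (b l) * π (fun m => f (m + l)) := by
      intro n
      induction n with
      | zero =>
        refine ⟨1, by simp, by simp, fun i hi => ⟨fun l => if l = ⟨i, hi⟩ then 1 else 0,
          fun l => ?_, ?_⟩⟩
        · by_cases hl : l = ⟨i, hi⟩
          · simp [hl]
          · simp [hl]
        · rw [Finset.sum_eq_single ⟨i, hi⟩]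
          · simp
          · intro l _ hl
            simp [hl]
          · intro h
            exact absurd (Finset.mem_univ _) h
      | succ n ih =>
        obtain ⟨z, hz, hzd, hb⟩ := ih
        refine ⟨sh n r * z, by rw [map_mul]; exact mul_ne_zero (hlead n) hz, ?_, ?_⟩
        · refine (totalDegree_mul _ _).trans ?_
          have hdg := hdeg n r le_rfl
          rw [Finset.sum_range_succ, mul_add]
          omega
        · intro i hi
          rcases Nat.lt_or_ge (i + 1) r with hi' | hi'
          · obtain ⟨b, hb1, hb2⟩ := hb (i + 1) hi'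
            refine ⟨fun l => sh n r * b l, fun l => ?_, ?_⟩
            · refine (totalDegree_mul _ _).trans ?_
              have hdg := hdeg n r le_rfl
              have := hb1 l
              rw [Finset.sum_range_succ, mul_add]
              omega
            · have h4 : n + 1 + i = n + (i + 1) := by ring
              rw [h4, map_mul, mul_assoc, hb2, Finset.mul_sum]
              refine Finset.sum_congr rfl fun l _ => ?_
              rw [map_mul, mul_assoc]
          · have h4 : n + 1 + i = n + r := by omega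
            rw [h4]
            choose b hb1 hb2 using fun i' : Fin r => hb i' i'.2
            refine ⟨fun l => -∑ i' : Fin r, sh n i' * b i' l, fun l => ?_, ?_⟩
            · rw [totalDegree_neg]
              refine (totalDegree_finsetSum _ _).trans (Finset.sup_le fun i' _ => ?_)
              refine (totalDegree_mul _ _).trans ?_
              have hdg := hdeg n i' i'.2.le
              have := hb1 i' l
              rw [Finset.sum_range_succ, mul_add]
              omega
            · have h5 := hrec n
              rw [Finset.sum_range_succ, Finset.sum_range] at h5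
              have h6 : ∑ l, aeval τ (-∑ i' : Fin r, sh n i' * b i' l) * π (fun m => f (m + l))
                  = -∑ i' : Fin r, aeval τ (sh n i') *
                    (aeval τ z * π (fun m => f (m + (n + i')))) := by
                simp only [hb2, map_neg, map_sum, map_mul, neg_mul, Finset.sum_neg_distrib,
                  Finset.sum_mul, Finset.mul_sum]
                rw [Finset.sum_comm]
                congr 1
                refine Finset.sum_congr rfl fun i' _ => Finset.sum_congr rfl fun l _ => ?_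
                ring
              rw [h6, map_mul]
              have h7 : ∑ i' : Fin r, aeval τ (sh n i') *
                    (aeval τ z * π (fun m => f (m + (n + i'))))
                  = aeval τ z * ∑ i' : Fin r, aeval τ (sh n i') *
                      π (fun m => f (m + (n + i'))) := by
                rw [Finset.mul_sum]
                refine Finset.sum_congr rfl fun i' _ => ?_
                ring
              rw [h7]
              linear_combination (aeval τ z) * h5
    intro n
    obtain ⟨z, e1, e2, e3⟩ := key n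
    obtain ⟨b, e4, e5⟩ := e3 0 hr
    exact ⟨z, e1, e2, b, e4, by simpa using e5⟩

end proj

end Pool.Agent.X332.KS
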